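import Pool.Agent.R227.Polya5

set_option autoImplicit false

open MeasureTheory

namespace Pool.Agent.Results.MP_1ab439_an.BelowLiYau

/-- The factor multiplying Weyl's term. -/
noncomputable def kappa (n : ℕ) (q : ℝ) : ℝ :=
  (q ^ 2 - n / (n + 2) + n * ∫ y in (1:ℝ)..q, y ^ (n - 1) * (q ^ 2 - y ^ 2) / y ^ 2) / (q ^ 2 - 1)

/-- `Bound n c`: for all bounded open `Ω ⊆ ℝⁿ`, all `lam > 0` and every space `V` of smooth
functions compactly supported in `Ω` with Rayleigh quotient below `lam`, the space `V` is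
finite-dimensional of dimension at most `c` times Weyl's term. -/
def Bound (n : ℕ) (c : ℝ) : Prop :=
    ∀ Ω : Set (EuclideanSpace ℝ (Fin n)), IsOpen Ω → Bornology.IsBounded Ω →
    ∀ lam : ℝ, 0 < lam →
    ∀ V : Submodule ℝ (EuclideanSpace ℝ (Fin n) → ℝ),
      (∀ u ∈ V, ContDiff ℝ (⊤ : ℕ∞) u ∧ HasCompactSupport u ∧ tsupport u ⊆ Ω) →
      (∀ u ∈ V, u ≠ 0 →
        ∫ x, ‖fderiv ℝ u x‖ ^ 2 < lam * ∫ x, (u x) ^ 2) →
      FiniteDimensional ℝ V ∧
      (Module.finrank ℝ V : ℝ) ≤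
        c * ((4 * Real.pi) ^ (-(n : ℝ) / 2) / Real.Gamma (1 + (n : ℝ) / 2)
          * lam ^ ((n : ℝ) / 2) * (MeasureTheory.volume Ω).toReal)

theorem result :
    (∀ n : ℕ, 1 ≤ n → ∀ q : ℝ, 1 < q → Bound n (kappa n q)) ∧
    (∀ n : ℕ, 1 ≤ n → ∃ c : ℝ, c < (1 + 2 / (n : ℝ)) ^ ((n : ℝ) / 2) ∧ Bound n c) ∧
    Bound 2 1.858 ∧ Bound 3 2.0374 := by
  have hfd : ∀ n : ℕ, 1 ≤ n → ∀ Ω : Set (EuclideanSpace ℝ (Fin n)), Bornology.IsBounded Ω →
    ∀ lam : ℝ, 0 < lam →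
    ∀ V : Submodule ℝ (EuclideanSpace ℝ (Fin n) → ℝ),
      (∀ u ∈ V, ContDiff ℝ (⊤ : ℕ∞) u ∧ HasCompactSupport u ∧ tsupport u ⊆ Ω) →
      (∀ u ∈ V, u ≠ 0 →
        ∫ x, ‖fderiv ℝ u x‖ ^ 2 < lam * ∫ x, (u x) ^ 2) → FiniteDimensional ℝ V := by
    intro n hn Ω hb lam hlam V hV hR
    by_contra hinf
    set B : ℝ := Pool.Agent.R227.Polya.kappa n 2 * Pool.Agent.R227.Polya.weyl n lam Ω with hB
    obtain ⟨N, hN⟩ := exists_nat_gt B
    have hrank : (N : Cardinal) ≤ Module.rank ℝ V := by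
      have h1 : Cardinal.aleph0 ≤ Module.rank ℝ V := by
        rw [← not_lt]
        intro h
        exact hinf (Module.rank_lt_aleph0_iff.mp h)
      exact (Cardinal.natCast_le_aleph0).trans h1
    obtain ⟨s, hs, hli⟩ := le_rank_iff_exists_linearIndependent_finset.mp hrank
    set W' : Submodule ℝ V := Submodule.span ℝ (s : Set V) with hW'
    have hW'r : Module.finrank ℝ W' = N := by
      rw [hW', finrank_span_finset_eq_card hli, hs]
    have hW'f : FiniteDimensional ℝ W' := FiniteDimensional.span_finset ℝ s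
    set W : Submodule ℝ (EuclideanSpace ℝ (Fin n) → ℝ) := W'.map V.subtype with hW
    have hWr : Module.finrank ℝ W = N := by
      rw [hW, Submodule.finrank_map_subtype_eq, hW'r]
    have hWf : FiniteDimensional ℝ W := by
      rw [hW]; infer_instance
    have hWV : W ≤ V := Submodule.map_subtype_le V W'
    have := Pool.Agent.R227.Polya.bound2 hn Ω hb lam hlam W (fun u hu => hV u (hWV hu))
      (fun u hu => hR u (hWV hu)) 2 (by norm_num)
    rw [hWr] at this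
    linarith
  have hmain : ∀ n : ℕ, 1 ≤ n → ∀ q : ℝ, 1 < q → Bound n (kappa n q) := by
    intro n hn q hq Ω _ hb lam hlam V hV hR
    have hf := hfd n hn Ω hb lam hlam V hV hR
    exact ⟨hf, Pool.Agent.R227.Polya.bound2 hn Ω hb lam hlam V hV hR q hq⟩
  have hmono : ∀ n : ℕ, ∀ c d : ℝ, c ≤ d → Bound n c → Bound n d := by
    intro n c d hcd hc Ω hΩ hb lam hlam V hV hR
    obtain ⟨h1, h2⟩ := hc Ω hΩ hb lam hlam V hV hR
    refine ⟨h1, h2.trans (mul_le_mul_of_nonneg_right hcd ?_)⟩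
    have : 0 < Real.Gamma (1 + (n:ℝ) / 2) := Real.Gamma_pos_of_pos (by positivity)
    positivity
  refine ⟨hmain, ?_, ?_, ?_⟩
  · intro n hn
    obtain ⟨q, hq, h⟩ := Pool.Agent.R227.Polya.kappa_lt n hn
    exact ⟨_, h, hmain n hn q hq⟩
  · obtain ⟨q, hq, h⟩ := Pool.Agent.R227.Polya.kappa_two
    exact hmono 2 _ _ h (hmain 2 (by norm_num) q hq)
  · obtain ⟨q, hq, h⟩ := Pool.Agent.R227.Polya.kappa_three
    exact hmono 3 _ _ h (hmain 3 (by norm_num) q hq)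

end Pool.Agent.Results.MP_1ab439_an.BelowLiYau
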